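import Mathlib

/-!
Counting reduced words along a partial action of the letters of a free group.
-/

set_option autoImplicit false

namespace Pool.Agent.H82.Cogrowth

open PowerSeries

/-- The inverse letter. -/
def linv {A : Type*} (l : A × Bool) : A × Bool := (l.1, !l.2)

theorem linv_linv {A : Type*} (l : A × Bool) : linv (linv l) = l := by
  simp [linv]

/-- A partial action of the letters of the free group on `A` by partial injections. -/
structure PAct (A V : Type*) where
  act : A × Bool → V → Option V
  act_inv : ∀ l v w, act l v = some w → act (linv l) w = some v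

namespace PAct

variable {A V : Type*} (P : PAct A V)

/-- Follow a word (right to left) from the vertex `v`. -/
def evalFrom (v : V) : List (A × Bool) → Option V
  | [] => some v
  | l :: L => (evalFrom v L).bind (P.act l)

@[simp] theorem evalFrom_nil (v : V) : P.evalFrom v [] = some v := rfl

@[simp] theorem evalFrom_cons (v : V) (l : A × Bool) (L : List (A × Bool)) :
    P.evalFrom v (l :: L) = (P.evalFrom v L).bind (P.act l) := rfl

theorem evalFrom_append (v : V) (L1 L2 : List (A × Bool)) :
    P.evalFrom v (L1 ++ L2) = (P.evalFrom v L2).bind (fun w => P.evalFrom w L1) := by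
  induction L1 with
  | nil => simp
  | cons l L ih =>
    simp only [List.cons_append, evalFrom_cons, ih]
    cases P.evalFrom v L2 <;> simp

theorem evalFrom_invRev (v w : V) (L : List (A × Bool)) (h : P.evalFrom v L = some w) :
    P.evalFrom w (FreeGroup.invRev L) = some v := by
  induction L generalizing w with
  | nil =>
    simp at h
    subst h
    simp [FreeGroup.invRev]
  | cons l L ih =>
    rw [evalFrom_cons] at h
    obtain ⟨u, hu, hw⟩ := Option.bind_eq_some_iff.1 h
    have h1 := ih u hu
    have h2 := P.act_inv _ _ _ hw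
    have : FreeGroup.invRev (l :: L) = FreeGroup.invRev L ++ [linv l] := by
      simp [FreeGroup.invRev, linv]
    rw [this, evalFrom_append]
    simp [h2, h1]

variable [DecidableEq A]

theorem evalFrom_reduce (v w : V) (L : List (A × Bool)) (h : P.evalFrom v L = some w) :
    P.evalFrom v (FreeGroup.reduce L) = some w := by
  induction L generalizing w with
  | nil => simpa using h
  | cons l L ih =>
    rw [evalFrom_cons] at h
    obtain ⟨u, hu, hw⟩ := Option.bind_eq_some_iff.1 h
    have h1 := ih u hu
    rw [FreeGroup.reduce.cons]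
    cases hr : FreeGroup.reduce L with
    | nil =>
      rw [hr] at h1
      simp at h1
      subst h1
      simp [hw]
    | cons hd tl =>
      rw [hr] at h1
      dsimp only
      split_ifs with hc
      · rw [evalFrom_cons] at h1
        obtain ⟨u', hu', hw'⟩ := Option.bind_eq_some_iff.1 h1
        have h3 := P.act_inv _ _ _ hw'
        have h4 : linv hd = l := by
          rcases l with ⟨a, b⟩
          rcases hd with ⟨c, d⟩
          simp only [linv, Prod.mk.injEq] at hc ⊢
          exact ⟨hc.1.symm, hc.2.symm⟩
        rw [h4, hw] at h3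
        rw [hu', Option.some.inj h3]
      · rw [evalFrom_cons, h1]
        simpa using hw

/-- The subgroup of all elements whose reduced word labels a closed path at `v0`. -/
def stab (v0 : V) : Subgroup (FreeGroup A) where
  carrier := {w | P.evalFrom v0 w.toWord = some v0}
  one_mem' := by simp
  mul_mem' := by
    intro a b ha hb
    simp only [Set.mem_ofPred_eq] at ha hb ⊢
    rw [FreeGroup.toWord_mul]
    apply P.evalFrom_reduce
    rw [evalFrom_append, hb]
    simpa using ha
  inv_mem' := by
    intro a ha
    simp only [Set.mem_ofPred_eq] at ha ⊢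
    rw [FreeGroup.toWord_inv]
    exact P.evalFrom_invRev _ _ _ ha

theorem mem_stab {v0 : V} {w : FreeGroup A} :
    w ∈ P.stab v0 ↔ P.evalFrom v0 w.toWord = some v0 := Iff.rfl

omit [DecidableEq A]

/-- Reduced words of length `n` leading from `v0` to `v`. -/
def S (v0 : V) (n : ℕ) (v : V) : Set (List (A × Bool)) :=
  {L | FreeGroup.IsReduced L ∧ L.length = n ∧ P.evalFrom v0 L = some v}

/-- Those whose first letter is `l`. -/
def S' (v0 : V) (n : ℕ) (v : V) (l : A × Bool) : Set (List (A × Bool)) :=
  {L | L ∈ P.S v0 n v ∧ L.head? = some l}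

variable [Finite A]

theorem S_finite (v0 : V) (n : ℕ) (v : V) : (P.S v0 n v).Finite :=
  (List.finite_length_eq (A × Bool) n).subset (fun _ h => h.2.1)

theorem S'_finite (v0 : V) (n : ℕ) (v : V) (l : A × Bool) : (P.S' v0 n v l).Finite :=
  (P.S_finite v0 n v).subset (fun _ h => h.1)

/-- number of reduced words -/
noncomputable def cnt (v0 : V) (n : ℕ) (v : V) : ℤ := (P.S v0 n v).ncard

noncomputable def cnt' (v0 : V) (n : ℕ) (v : V) (l : A × Bool) : ℤ := (P.S' v0 n v l).ncard

omit [Finite A] in
theorem cnt_zero (v0 v : V) [Decidable (v = v0)] : P.cnt v0 0 v = if v = v0 then 1 else 0 := by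
  unfold cnt
  split_ifs with h
  · subst h
    have : P.S v 0 v = {[]} := by
      ext L
      simp only [S, Set.mem_ofPred_eq, Set.mem_singleton_iff, List.length_eq_zero_iff]
      constructor
      · rintro ⟨_, h, _⟩; exact h
      · rintro rfl; simp [FreeGroup.IsReduced.nil]
    rw [this]; simp
  · have : P.S v0 0 v = ∅ := by
      ext L
      simp only [S, Set.mem_ofPred_eq, List.length_eq_zero_iff, Set.mem_empty_iff_false, iff_false]
      rintro ⟨_, rfl, h2⟩
      simp at h2
      exact h h2.symm
    rw [this]; simp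

omit [Finite A] in
theorem cnt'_zero (v0 v : V) (l : A × Bool) : P.cnt' v0 0 v l = 0 := by
  unfold cnt'
  have : P.S' v0 0 v l = ∅ := by
    ext L
    simp only [S', S, Set.mem_ofPred_eq, List.length_eq_zero_iff, Set.mem_empty_iff_false, iff_false]
    rintro ⟨⟨_, rfl, h2⟩, h3⟩
    simp at h3
  rw [this]; simp

omit [Finite A] in
theorem cnt'_none (v0 v : V) (n : ℕ) (l : A × Bool) (h : P.act (linv l) v = none) :
    P.cnt' v0 n v l = 0 := by
  unfold cnt'
  have : P.S' v0 n v l = ∅ := by
    ext L
    simp only [S', S, Set.mem_ofPred_eq, Set.mem_empty_iff_false, iff_false]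
    rintro ⟨⟨_, _, h2⟩, h3⟩
    cases L with
    | nil => simp at h3
    | cons a L =>
      simp at h3
      subst h3
      rw [evalFrom_cons] at h2
      obtain ⟨u', hu', hw'⟩ := Option.bind_eq_some_iff.1 h2
      rw [P.act_inv _ _ _ hw'] at h
      exact absurd h (by simp)
  rw [this]; simp

theorem cnt'_succ (v0 v v' : V) (n : ℕ) (l : A × Bool) (h : P.act (linv l) v = some v') :
    P.cnt' v0 (n + 1) v l = P.cnt v0 n v' - P.cnt' v0 n v' (linv l) := by
  have key : P.S' v0 (n + 1) v l = (fun L => l :: L) '' (P.S v0 n v' \ P.S' v0 n v' (linv l)) := by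
    ext L
    simp only [S', Set.mem_ofPred_eq, Set.mem_image, Set.mem_sdiff, not_and]
    constructor
    · rintro ⟨⟨h1, h2, h3⟩, h4⟩
      cases L with
      | nil => simp at h4
      | cons a L =>
        simp at h4
        subst h4
        rw [evalFrom_cons] at h3
        obtain ⟨u', hu', hw'⟩ := Option.bind_eq_some_iff.1 h3
        have h5 := P.act_inv _ _ _ hw'
        rw [h] at h5
        have h5' := Option.some.inj h5
        subst h5'
        refine ⟨L, ⟨⟨?_, by simpa using h2, hu'⟩, ?_⟩, rfl⟩
        · exact List.IsChain.tail h1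
        · intro _ h6
          cases L with
          | nil => simp at h6
          | cons c L =>
            simp at h6
            rw [FreeGroup.isReduced_cons_cons] at h1
            have h7 := h1.1
            rw [h6] at h7
            simp [linv] at h7
    · rintro ⟨L', ⟨⟨h1, h2, h3⟩, h4⟩, rfl⟩
      refine ⟨⟨?_, by simpa using h2, ?_⟩, by simp⟩
      · cases L' with
        | nil => exact FreeGroup.IsReduced.singleton
        | cons c L =>
          rw [FreeGroup.isReduced_cons_cons]
          refine ⟨?_, h1⟩
          intro h5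
          by_contra h6
          apply h4 ⟨h1, h2, h3⟩
          simp only [List.head?_cons, linv, Option.some.injEq]
          rcases l with ⟨a, b⟩
          rcases c with ⟨c, d⟩
          simp only [Prod.mk.injEq] at h5 h6 ⊢
          refine ⟨h5.symm, ?_⟩
          cases b <;> cases d <;> simp_all
      · rw [evalFrom_cons, h3]
        have := P.act_inv _ _ _ h
        rw [linv_linv] at this
        simpa using this
  unfold cnt' cnt
  rw [key, Set.ncard_image_of_injective _ (fun a b h => by simpa using h),
    Set.ncard_sdiff (fun L hL => hL.1) (P.S'_finite _ _ _ _)]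
  rw [Nat.cast_sub]
  exact Set.ncard_le_ncard (fun L hL => hL.1) (P.S_finite _ _ _)

theorem cnt'_sum [Fintype A] (v0 v : V) [Decidable (v = v0)] (n : ℕ) :
    ∑ l, P.cnt' v0 n v l = P.cnt v0 n v - (if n = 0 ∧ v = v0 then 1 else 0) := by
  classical
  rcases Nat.eq_zero_or_pos n with rfl | hn
  · rw [P.cnt_zero]
    simp [P.cnt'_zero]
  · have hn' : ¬ (n = 0 ∧ v = v0) := fun h => by omega
    rw [if_neg hn', sub_zero]
    have h1 := Finset.card_eq_sum_card_fiberwise (s := (P.S_finite v0 n v).toFinset)
      (f := fun L => L.head?) (t := Finset.univ) (fun _ _ => Finset.mem_coe.2 (Finset.mem_univ _))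
    rw [Fintype.sum_option] at h1
    have h2 : (Finset.filter (fun L => L.head? = none) (P.S_finite v0 n v).toFinset) = ∅ := by
      ext L
      simp only [Finset.mem_filter, Set.Finite.mem_toFinset, List.head?_eq_none_iff]
      constructor
      · rintro ⟨⟨_, h, _⟩, rfl⟩
        simp at h
        omega
      · intro h
        simp at h
    rw [h2, Finset.card_empty, zero_add] at h1
    unfold cnt cnt'
    rw [Set.ncard_eq_toFinset_card _ (P.S_finite v0 n v), h1]
    push_cast
    refine Finset.sum_congr rfl fun l _ => ?_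
    rw [Set.ncard_eq_toFinset_card _ (P.S'_finite v0 n v l)]
    congr 2
    ext L
    simp [S']

theorem cnt_succ [Fintype A] (v0 v : V) (n : ℕ) :
    P.cnt v0 (n + 1) v = ∑ l, P.cnt' v0 (n + 1) v l := by
  classical
  rw [P.cnt'_sum]
  simp

/-- A bijection on letters. -/
def linvEquiv (A : Type*) : (A × Bool) ≃ (A × Bool) where
  toFun := linv
  invFun := linv
  left_inv := linv_linv
  right_inv := linv_linv

theorem cnt'_one_eq [Fintype A] (v0 v : V) (l : A × Bool) (n : ℕ) :
    P.cnt' v0 (n + 1) v (linv l) =
      (P.act l v).elim 0 (fun v' => P.cnt v0 n v' - P.cnt' v0 n v' l) := by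
  cases h : P.act l v with
  | none =>
    simp only [Option.elim_none]
    apply P.cnt'_none
    rwa [linv_linv]
  | some v' =>
    simp only [Option.elim_some]
    have := P.cnt'_succ v0 v v' n (linv l) (by rwa [linv_linv])
    rw [this, linv_linv]

/-- degree -/
noncomputable def deg [Fintype A] (v : V) : ℤ := ∑ l, (P.act l v).elim 0 (fun _ => 1)

theorem cnt_one [Fintype A] (v0 v : V) :
    P.cnt v0 1 v = ∑ l, (P.act l v).elim 0 (P.cnt v0 0) := by
  rw [P.cnt_succ, ← Equiv.sum_comp (linvEquiv A)]
  refine Finset.sum_congr rfl fun l _ => ?_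
  have := P.cnt'_one_eq v0 v l 0
  simp only [linvEquiv, Equiv.coe_fn_mk]
  rw [this]
  cases h : P.act l v with
  | none => simp
  | some v' => simp [P.cnt'_zero]

theorem cnt_rec [Fintype A] (v0 v : V) [Decidable (v = v0)] (n : ℕ) :
    P.cnt v0 (n + 2) v + (P.deg v - 1) * P.cnt v0 n v + (if n = 0 ∧ v = v0 then 1 else 0)
      = ∑ l, (P.act l v).elim 0 (P.cnt v0 (n + 1)) := by
  have h1 : P.cnt v0 (n + 2) v = ∑ l, (P.act l v).elim 0 (P.cnt v0 (n + 1))
      - P.deg v * P.cnt v0 n v + ∑ l, P.cnt' v0 n v l := by
    rw [P.cnt_succ, ← Equiv.sum_comp (linvEquiv A),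
      ← Equiv.sum_comp (linvEquiv A) (fun l => P.cnt' v0 n v l), deg, Finset.sum_mul,
      ← Finset.sum_sub_distrib, ← Finset.sum_add_distrib]
    refine Finset.sum_congr rfl fun l _ => ?_
    simp only [linvEquiv, Equiv.coe_fn_mk]
    rw [P.cnt'_one_eq]
    cases h : P.act l v with
    | none =>
      simp only [Option.elim_none]
      rw [P.cnt'_none]
      · ring
      · rwa [linv_linv]
    | some v' =>
      simp only [Option.elim_some]
      have h2 := P.cnt'_succ v0 v' v n l (P.act_inv _ _ _ h)
      rw [h2]
      ring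
  rw [P.cnt'_sum] at h1
  rw [h1]
  ring

/-- generating function of the reduced words from `v0` to `v` -/
noncomputable def gen (v0 v : V) : PowerSeries ℤ := PowerSeries.mk (fun n => P.cnt v0 n v)

theorem gen_eq [Fintype A] (v0 v : V) [Decidable (v = v0)] :
    P.gen v0 v * (1 + X ^ 2 * (((P.deg v - 1 : ℤ) : PowerSeries ℤ)))
      = X * ∑ l, (P.act l v).elim 0 (P.gen v0) + (1 - X ^ 2) * (if v = v0 then 1 else 0) := by
  have hcast : ((P.deg v - 1 : ℤ) : PowerSeries ℤ) = C (P.deg v - 1) := by simp
  have hite : (if v = v0 then (1 : PowerSeries ℤ) else 0) = C (if v = v0 then 1 else 0) := by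
    split_ifs <;> simp
  have hel : ∀ n, coeff n (∑ l, (P.act l v).elim 0 (P.gen v0))
      = ∑ l, (P.act l v).elim 0 (P.cnt v0 n) := by
    intro n
    rw [map_sum]
    refine Finset.sum_congr rfl fun l _ => ?_
    cases P.act l v with
    | none => simp
    | some v' => simp [gen]
  have hrec := P.cnt_rec v0 v
  rw [hcast, hite]
  generalize P.deg v - 1 = d at hrec ⊢
  ext n
  have e1 : P.gen v0 v * (1 + X ^ 2 * C d)
      = P.gen v0 v + C d * (P.gen v0 v * X ^ 2) := by ring
  have e2 : (1 - X ^ 2 : PowerSeries ℤ) * C (if v = v0 then 1 else 0)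
      = C (if v = v0 then 1 else 0) - C (if v = v0 then 1 else 0) * X ^ 2 := by ring
  rw [e1, e2, mul_comm X]
  rw [map_add, map_add, map_sub, coeff_C_mul, coeff_C_mul]
  rcases n with _ | _ | n
  · simp only [coeff_mul_X_pow', coeff_zero_mul_X, gen, coeff_mk, coeff_C]
    rw [P.cnt_zero]
    simp
  · rw [coeff_succ_mul_X, hel]
    simp only [coeff_mul_X_pow', gen, coeff_mk, coeff_C, coeff_X_pow]
    rw [zero_add, P.cnt_one]
    simp
  · rw [coeff_succ_mul_X, hel]
    simp only [coeff_mul_X_pow', gen, coeff_mk, coeff_C, coeff_X_pow]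
    have h := hrec n
    have h3 : 2 ≤ n + 1 + 1 := by omega
    have h4 : n + 1 + 1 - 2 = n := by omega
    have h5 : ¬ (n + 1 + 1 = 0) := by omega
    rw [if_pos h3, h4, if_neg h5]
    by_cases hn : n = 0
    · subst hn
      by_cases hv : v = v0
      · simp [hv] at h ⊢
        linarith
      · simp [hv] at h ⊢
        linarith
    · have h6 : ¬ (n + 1 + 1 = 2) := by omega
      rw [if_neg h6]
      simp [hn] at h ⊢
      linarith

omit [Finite A] in
/-- Uniqueness of the Green function. -/
theorem green_unique [Fintype A] (h : V → PowerSeries ℤ)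
    (hh : ∀ v, h v * (1 + X ^ 2 * (((P.deg v - 1 : ℤ) : PowerSeries ℤ)))
      = X * ∑ l, (P.act l v).elim 0 h) : ∀ v, h v = 0 := by
  have key : ∀ n, ∀ v, coeff n (h v) = 0 := by
    intro n
    induction n using Nat.strong_induction_on with
    | _ n ih =>
      intro v
      have hcast : ((P.deg v - 1 : ℤ) : PowerSeries ℤ) = C (P.deg v - 1) := by simp
      have h1 := congrArg (coeff n) (hh v)
      have e1 : h v * (1 + X ^ 2 * C (P.deg v - 1))
        = h v + C (P.deg v - 1) * (h v * X ^ 2) := by ring
      rw [hcast, e1, map_add, coeff_C_mul, mul_comm X, coeff_mul_X_pow'] at h1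
      rcases n with _ | n
      · simpa using h1
      · rw [coeff_succ_mul_X, map_sum] at h1
        have h2 : ∑ l, coeff n ((P.act l v).elim 0 h) = 0 := by
          apply Finset.sum_eq_zero
          intro l _
          cases P.act l v with
          | none => simp
          | some v' => simpa using ih n (by omega) v'
        rw [h2] at h1
        split_ifs at h1 with h3
        · rw [ih (n + 1 - 2) (by omega) v] at h1
          simpa using h1
        · simpa using h1
  intro v
  ext n
  simpa using key n v

end PAct

/-- The cogrowth count equals the number of reduced closed words. -/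
theorem ncard_stab {A V : Type*} [DecidableEq A] (P : PAct A V) (v0 : V) (n : ℕ) :
    ({h : FreeGroup A | h ∈ P.stab v0 ∧ h.norm = n}.ncard : ℤ) = P.cnt v0 n v0 := by
  unfold PAct.cnt
  have : P.S v0 n v0 = FreeGroup.toWord '' {h : FreeGroup A | h ∈ P.stab v0 ∧ h.norm = n} := by
    ext L
    simp only [PAct.S, Set.mem_ofPred_eq, Set.mem_image]
    constructor
    · rintro ⟨h1, h2, h3⟩
      refine ⟨FreeGroup.mk L, ⟨?_, ?_⟩, ?_⟩
      · rw [PAct.mem_stab, FreeGroup.toWord_mk, h1.reduce_eq, h3]
      · rw [FreeGroup.norm, FreeGroup.toWord_mk, h1.reduce_eq, h2]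
      · rw [FreeGroup.toWord_mk, h1.reduce_eq]
    · rintro ⟨w, ⟨h1, h2⟩, rfl⟩
      exact ⟨FreeGroup.isReduced_toWord, h2, h1⟩
  rw [this, Set.ncard_image_of_injective _ FreeGroup.toWord_injective]

end Pool.Agent.H82.Cogrowth
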