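import Pool.Agent.H82.Cogrowth.Step

/-!
Assembly: an infinitely generated subgroup of the free group of rank 34 with rational
cogrowth series.
-/

set_option autoImplicit false

namespace Pool.Agent.H82.Cogrowth

open PowerSeries

/-- initial numerator -/
def q0 (n : ℕ) : ℤ := if n = 4 then 1 else 0

theorem rootOK : MainOK 0 (fun _ => 0) q0 where
  hs0 := fun _ _ => rfl
  hs := fun _ => le_rfl
  hs1 := fun i => by positivity
  hs2 := fun j => by simp
  hq0 := fun n hn => by
    unfold q0
    rw [if_neg (by omega)]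
  hq := fun n => by
    unfold q0
    split_ifs <;> norm_num
  hq1 := fun j => by
    unfold q0
    split_ifs
    · exact_mod_cast Nat.one_le_two_pow
    · positivity

noncomputable def rootSt : St := mainSt (fun _ => 0) q0

theorem rootGood : Good rootSt := Or.inl ⟨0, _, _, rootOK, rfl⟩

theorem rootFlag : Flag rootSt := ⟨0, _, _, rootOK, by simp [q0], rfl⟩

noncomputable def nextSt (t : {t // Good t}) (i : Ch) : {t // Good t} :=
  ⟨(good_step t.1 t.2).choose i, (good_step t.1 t.2).choose_spec.1 i⟩

noncomputable def treeSt : List Ch → {t // Good t}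
  | [] => ⟨rootSt, rootGood⟩
  | i :: v => nextSt (treeSt v) i

/-- the set of doubled edges -/
noncomputable def dblS (y : List Ch) : Bool := (treeSt y).1.kp

theorem kap_dblS (y : List Ch) : kap dblS y = (treeSt y).1.m := rfl

noncomputable def QQ (y : List Ch) : PowerSeries ℤ := (treeSt y).1.Q

noncomputable def FF (y : List Ch) : PowerSeries ℤ := (treeSt y).1.F

theorem tree_eq1 (v : List Ch) : (1 - X) * FF v
    = X * ∑ i, (kap dblS (i :: v) : PowerSeries ℤ) * (QQ (i :: v) - QQ v) :=
  (good_step (treeSt v).1 (treeSt v).2).choose_spec.2.1.1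

theorem tree_eq2 (v : List Ch) (i : Ch) :
    QQ (i :: v) * (1 - X + (kap dblS (i :: v) : PowerSeries ℤ) * X)
      = (kap dblS (i :: v) : PowerSeries ℤ) * QQ v + (1 - X) * FF (i :: v) :=
  (good_step (treeSt v).1 (treeSt v).2).choose_spec.2.1.2 i

theorem tree_flag (n : ℕ) : Flag (treeSt (List.replicate n (Sum.inl 0))).1 := by
  induction n with
  | zero => exact rootFlag
  | succ n ih =>
    rw [List.replicate_succ]
    exact (good_step _ (treeSt (List.replicate n (Sum.inl 0))).2).choose_spec.2.2 ih

theorem Flag.F_ne {t : St} (h : Flag t) : t.F ≠ 0 := by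
  obtain ⟨k, s, q, _, h1, rfl⟩ := h
  intro h2
  have h3 : (mainSt s q).F = 2 * mk q := rfl
  rw [h3] at h2
  have h4 := congrArg (coeff (4 + k)) h2
  rw [coeff_two_mk, h1] at h4
  simp at h4

theorem dbl_below (v : List Ch) (hF : FF v ≠ 0) : ∃ y, v.length < y.length ∧ dblS y = true := by
  by_contra hcon
  have hcon' : ∀ y : List Ch, v.length < y.length → dblS y = false := by
    intro y hy
    by_contra h
    exact hcon ⟨y, hy, by simpa using h⟩
  have hX : (1 - X : PowerSeries ℤ) ≠ 0 := by
    intro h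
    have := congrArg (coeff 0) h
    simp at this
  have h1 : ∀ w : List Ch, v.length ≤ w.length → FF w = X * ∑ i, FF (i :: w) := by
    intro w hw
    apply mul_left_cancel₀ hX
    rw [tree_eq1 w]
    have : ∀ i, (kap dblS (i :: w) : PowerSeries ℤ) * (QQ (i :: w) - QQ w)
        = (1 - X) * FF (i :: w) := by
      intro i
      have h2 := tree_eq2 w i
      have h3 : kap dblS (i :: w) = 1 := by
        unfold kap
        rw [hcon' (i :: w) (by simp; omega)]
        simp
      rw [h3] at h2 ⊢
      push_cast at h2 ⊢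
      linear_combination h2
    rw [Finset.sum_congr rfl (fun i _ => this i), ← Finset.mul_sum]
    ring
  have h2 : ∀ m : ℕ, ∀ w : List Ch, v.length ≤ w.length → coeff m (FF w) = 0 := by
    intro m
    induction m with
    | zero =>
      intro w hw
      rw [h1 w hw, mul_comm, coeff_zero_mul_X]
    | succ m ih =>
      intro w hw
      rw [h1 w hw, mul_comm, coeff_succ_mul_X, map_sum]
      apply Finset.sum_eq_zero
      intro i _
      exact ih (i :: w) (by simp; omega)
  apply hF
  ext m
  simpa using h2 m v le_rfl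

theorem dbl_inf (n : ℕ) : ∃ y : List Ch, n < y.length ∧ dblS y = true := by
  have := dbl_below (List.replicate n (Sum.inl 0)) (tree_flag n).F_ne
  simpa using this

/-- The thirty-four letters. -/
noncomputable def eLet : Fin 34 ≃ Ch × Bool :=
  (Fintype.equivFinOfCardEq (by simp)).symm

/-- The subgroup of the counterexample. -/
noncomputable def HH : Subgroup (FreeGroup (Fin 34)) := (treeP eLet dblS).stab []

theorem HH_not_fg : ¬ HH.FG := not_fg eLet dblS dbl_inf

theorem Q0_mul : (1 - 2 * X) * Q0 = 1 - 3 * X := by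
  have e : (1 - 2 * X) * Q0 = Q0 - 2 * (Q0 * X) := by ring
  have h2 : (2 : PowerSeries ℤ) = C 2 := by simp
  have h3 : (3 : PowerSeries ℤ) = C 3 := by simp
  rw [e]
  ext n
  rw [h2, h3, map_sub, map_sub, coeff_C_mul, coeff_C_mul]
  rcases n with _ | _ | n
  · simp [Q0]
  · rw [coeff_succ_mul_X]
    simp [Q0]
  · rw [coeff_succ_mul_X]
    simp only [Q0, coeff_mk, coeff_one, coeff_X]
    have h1 : ¬ (n + 1 + 1 = 0) := by omega
    have h2 : ¬ (n + 1 = 0) := by omega
    have h3 : ¬ (n + 1 + 1 = 1) := by omega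
    rw [if_neg h1, if_neg h2, if_neg h1, if_neg h3]
    have h4 : n + 1 + 1 - 1 = n + 1 := by omega
    have h5 : n + 1 - 1 = n := by omega
    rw [h4, h5]
    ring

theorem gen_rational : (1 - 3 * X ^ 2 - 2 * X ^ 8 + 4 * X ^ 10) * (treeP eLet dblS).gen [] []
    = 1 - 3 * X ^ 2 := by
  have h := gen_tree eLet dblS QQ FF tree_eq1 tree_eq2
  have hQ : QQ [] = Q0 := by
    have : QQ [] = Q0 + (1 - X) * (2 * mk (fun _ => 0)) := rfl
    rw [this]
    have h0 : (mk (fun _ => 0) : PowerSeries ℤ) = 0 := by
      ext n; simp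
    rw [h0]
    ring
  have hF : FF [] = 2 * X ^ 4 := by
    have : FF [] = 2 * mk q0 := rfl
    rw [this]
    congr 1
    ext n
    simp [q0, coeff_X_pow]
  rw [hQ, hF] at h
  have h1 := congrArg E2 Q0_mul
  have h2n : (2 : PowerSeries ℤ) = ((2 : ℤ) : PowerSeries ℤ) := by norm_num
  have h3n : (3 : PowerSeries ℤ) = ((3 : ℤ) : PowerSeries ℤ) := by norm_num
  have e2 : E2 (2 : PowerSeries ℤ) = 2 := by rw [h2n, map_intCast]
  have e3 : E2 (3 : PowerSeries ℤ) = 3 := by rw [h3n, map_intCast]
  simp only [map_mul, map_sub, map_one, E2_X, e2, e3] at h1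
  simp only [map_mul, map_sub, map_pow, E2_X, e2] at h
  linear_combination (1 - 2 * X ^ 2) * h + (1 - (treeP eLet dblS).gen [] []) * h1

theorem HH_series (n : ℕ) :
    ({h : FreeGroup (Fin 34) | h ∈ HH ∧ h.norm = n}.ncard : ℤ)
      = coeff n ((treeP eLet dblS).gen [] []) := by
  unfold HH
  rw [ncard_stab]
  simp [PAct.gen]

end Pool.Agent.H82.Cogrowth
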