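import Pool.Agent.H82.Cogrowth.Tree

/-!
If there are doubled edges arbitrarily far away, the subgroup is not finitely generated.
-/

set_option autoImplicit false

namespace Pool.Agent.H82.Cogrowth

variable {A B : Type*} [DecidableEq B] [DecidableEq A] (e : A ≃ B × Bool) (dbl : List B → Bool)

/-- forget the doubled edges beyond depth `n` -/
def cut (n : ℕ) (y : List B) : Bool := dbl y && decide (y.length ≤ n)

omit [DecidableEq B] in
theorem hasEdge_cut {n : ℕ} {y : List B} (c : Bool) (hy : y.length ≤ n) :
    hasEdge (cut dbl n) c y = hasEdge dbl c y := by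
  simp [hasEdge, cut, hy]

omit [DecidableEq A] in
theorem act_length {l : A × Bool} {v w : List B} (h : (treeP e dbl).act l v = some w) :
    w.length ≤ v.length + 1 := by
  obtain ⟨a, b⟩ := l
  cases b with
  | true =>
    simp only [treeP, treeAct] at h
    split_ifs at h
    obtain rfl := Option.some.inj h
    simp
  | false =>
    cases v with
    | nil => simp [treeP, treeAct] at h
    | cons i v =>
      simp only [treeP, treeAct] at h
      split_ifs at h
      obtain rfl := Option.some.inj h
      simp
      omega

omit [DecidableEq A] in
theorem act_cut {n : ℕ} {l : A × Bool} {v : List B} (hv : v.length + 1 ≤ n) :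
    (treeP e (cut dbl n)).act l v = (treeP e dbl).act l v := by
  obtain ⟨a, b⟩ := l
  cases b with
  | true =>
    simp only [treeP, treeAct]
    rw [hasEdge_cut]
    simpa using hv
  | false =>
    cases v with
    | nil => simp [treeP, treeAct]
    | cons i v =>
      simp only [treeP, treeAct]
      rw [hasEdge_cut]
      simp at hv ⊢
      omega

omit [DecidableEq A] in
theorem eval_length (L : List (A × Bool)) (w : List B)
    (h : (treeP e dbl).evalFrom [] L = some w) : w.length ≤ L.length := by
  induction L generalizing w with
  | nil =>
    simp at h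
    subst h
    simp
  | cons l L ih =>
    rw [PAct.evalFrom_cons] at h
    obtain ⟨u, hu, hw⟩ := Option.bind_eq_some_iff.1 h
    have h1 := ih u hu
    have h2 := act_length e dbl hw
    simp
    omega

omit [DecidableEq A] in
theorem eval_cut {n : ℕ} (L : List (A × Bool)) (hL : L.length ≤ n) :
    (treeP e (cut dbl n)).evalFrom [] L = (treeP e dbl).evalFrom [] L := by
  induction L with
  | nil => simp
  | cons l L ih =>
    simp only [List.length_cons] at hL
    rw [PAct.evalFrom_cons, PAct.evalFrom_cons, ih (by omega)]
    cases h : (treeP e dbl).evalFrom [] L with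
    | none => simp
    | some v =>
      simp only [Option.bind_some]
      apply act_cut
      have := eval_length e dbl L v h
      omega

/-- the word of plain letters leading to `v` -/
def wordTo (v : List B) : List (A × Bool) := v.map (fun j => (e.symm (j, false), true))

omit [DecidableEq A] in
theorem eval_wordTo (v : List B) : (treeP e dbl).evalFrom [] (wordTo e v) = some v := by
  induction v with
  | nil => simp [wordTo]
  | cons i v ih =>
    have : wordTo e (i :: v) = (e.symm (i, false), true) :: wordTo e v := by simp [wordTo]
    rw [this, PAct.evalFrom_cons, ih]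
    simp [treeP, treeAct, hasEdge]

omit [DecidableEq A] [DecidableEq B] in
theorem wordTo_reduced (v : List B) : FreeGroup.IsReduced (wordTo e v) := by
  induction v with
  | nil => simp [wordTo, FreeGroup.IsReduced.nil]
  | cons i v ih =>
    cases v with
    | nil => simp [wordTo, FreeGroup.IsReduced.singleton]
    | cons j v =>
      have h1 : wordTo e (j :: v) = (e.symm (j, false), true) :: wordTo e v := by simp [wordTo]
      have h2 : wordTo e (i :: j :: v) = (e.symm (i, false), true) :: wordTo e (j :: v) := by
        simp [wordTo]
      rw [h2, h1, FreeGroup.isReduced_cons_cons, ← h1]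
      exact ⟨fun _ => rfl, ih⟩

omit [DecidableEq A] [DecidableEq B] in
theorem word_reduced (i : B) (v : List B) :
    FreeGroup.IsReduced ((e.symm (i, false), false) :: (e.symm (i, true), true) :: wordTo e v) := by
  rw [FreeGroup.isReduced_cons_cons]
  refine ⟨fun h => ?_, ?_⟩
  · simp at h
  · cases v with
    | nil => exact FreeGroup.IsReduced.singleton
    | cons j v =>
      have h1 : wordTo e (j :: v) = (e.symm (j, false), true) :: wordTo e v := by simp [wordTo]
      have h2 := wordTo_reduced e (j :: v)
      rw [h1] at h2 ⊢
      rw [FreeGroup.isReduced_cons_cons]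
      exact ⟨fun _ => rfl, h2⟩

theorem not_fg (hinf : ∀ n : ℕ, ∃ y : List B, n < y.length ∧ dbl y = true) :
    ¬ ((treeP e dbl).stab []).FG := by
  rintro ⟨S, hS⟩
  set n := S.sup FreeGroup.norm with hn
  have hle : (treeP e dbl).stab [] ≤ (treeP e (cut dbl n)).stab [] := by
    rw [← hS, Subgroup.closure_le]
    intro w hw
    have h1 : w ∈ (treeP e dbl).stab [] := by
      rw [← hS]
      exact Subgroup.subset_closure hw
    have h2 : w.norm ≤ n := Finset.le_sup (f := FreeGroup.norm) hw
    change w ∈ (treeP e (cut dbl n)).stab []
    rw [PAct.mem_stab] at h1 ⊢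
    rw [eval_cut e dbl _ h2, h1]
  obtain ⟨y, hy, hd⟩ := hinf n
  cases y with
  | nil => simp at hy
  | cons i v =>
    set L := (e.symm (i, false), false) :: (e.symm (i, true), true) :: wordTo e v with hL
    have hg : FreeGroup.mk (FreeGroup.invRev (wordTo e v) ++ L) ∈ (treeP e dbl).stab [] := by
      rw [PAct.mem_stab, FreeGroup.toWord_mk]
      apply PAct.evalFrom_reduce
      rw [PAct.evalFrom_append]
      have h1 : (treeP e dbl).evalFrom [] L = some v := by
        rw [hL, PAct.evalFrom_cons, PAct.evalFrom_cons, eval_wordTo]
        simp [treeP, treeAct, hasEdge, hd]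
      rw [h1, Option.bind_some]
      exact PAct.evalFrom_invRev _ _ _ _ (eval_wordTo e dbl v)
    have hg' := hle hg
    have h3 : (treeP e (cut dbl n)).evalFrom []
        (FreeGroup.reduce (wordTo e v ++ FreeGroup.toWord
          (FreeGroup.mk (FreeGroup.invRev (wordTo e v) ++ L)))) = some v := by
      apply PAct.evalFrom_reduce
      rw [PAct.evalFrom_append, (PAct.mem_stab _).1 hg', Option.bind_some]
      exact eval_wordTo e _ v
    have h4 : FreeGroup.reduce (wordTo e v ++ FreeGroup.toWord
          (FreeGroup.mk (FreeGroup.invRev (wordTo e v) ++ L))) = L := by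
      have h5 : FreeGroup.mk (wordTo e v ++ FreeGroup.toWord
          (FreeGroup.mk (FreeGroup.invRev (wordTo e v) ++ L))) = FreeGroup.mk L := by
        rw [← FreeGroup.mul_mk, FreeGroup.mk_toWord, ← FreeGroup.mul_mk, ← FreeGroup.inv_mk]
        group
      have h6 := congrArg FreeGroup.toWord h5
      have h7 : (FreeGroup.mk L).toWord = L := (word_reduced e i v).reduce_eq
      rw [h7] at h6
      exact h6
    rw [h4, hL, PAct.evalFrom_cons, PAct.evalFrom_cons, eval_wordTo] at h3
    have h7 : (treeP e (cut dbl n)).act (e.symm (i, true), true) v = none := by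
      have : ¬ (v.length + 1 ≤ n) := by
        simp at hy
        omega
      simp [treeP, treeAct, hasEdge, cut, this]
    rw [Option.bind_some, h7] at h3
    simp at h3

end Pool.Agent.H82.Cogrowth
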