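import Pool.Agent.H82.Cogrowth.NotFG

/-!
The greedy state machine which produces the tree of the counterexample.
-/

set_option autoImplicit false

namespace Pool.Agent.H82.Cogrowth

open PowerSeries

/-- Fourteen main children and three slots for tails. -/
abbrev Ch := Fin 14 ⊕ Fin 3

/-- A state: is the edge above doubled, and the series `Q` and `F`. -/
structure St where
  kp : Bool
  Q : PowerSeries ℤ
  F : PowerSeries ℤ

/-- multiplicity -/
def St.m (s : St) : ℤ := if s.kp then 2 else 1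

/-- The local equations at a vertex. -/
def LocalEq (s : St) (c : Ch → St) : Prop :=
  (1 - X) * s.F = X * ∑ i, ((c i).m : PowerSeries ℤ) * ((c i).Q - s.Q) ∧
  ∀ i, (c i).Q * (1 - X + ((c i).m : PowerSeries ℤ) * X)
    = ((c i).m : PowerSeries ℤ) * s.Q + (1 - X) * (c i).F

/-- dead state -/
def dead (k : Bool) (Q : PowerSeries ℤ) : St := ⟨k, Q, 0⟩

theorem dead_step (k : Bool) (Q : PowerSeries ℤ) : LocalEq (dead k Q) (fun _ => dead false Q) := by
  constructor
  · simp [dead]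
  · intro i
    simp [dead, St.m]

noncomputable def D (h : ℕ) : PowerSeries ℤ := 1 - X + 2 * X ^ (h + 1)

/-- tail state -/
noncomputable def tailSt : ℕ → PowerSeries ℤ → St
  | 0, T => ⟨true, 2 * T, 0⟩
  | h + 1, T => ⟨false, T * D h, 2 * X ^ (h + 1) * T⟩

theorem tail_step (h : ℕ) (T : PowerSeries ℤ) :
    LocalEq (tailSt (h + 1) T)
      (Sum.elim (fun i => if i = 0 then tailSt h T else dead false (T * D h))
        (fun _ => dead false (T * D h))) := by
  constructor
  · rw [Fintype.sum_sum_type]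
    simp only [Sum.elim_inl, Sum.elim_inr]
    rw [Finset.sum_eq_single (0 : Fin 14)]
    · cases h with
      | zero =>
        simp [tailSt, dead, St.m, D]
        ring
      | succ h =>
        simp [tailSt, dead, St.m, D]
        ring
    · intro j _ hj
      simp [hj, tailSt, dead, St.m]
    · simp
  · rintro (i | i)
    · simp only [Sum.elim_inl]
      split_ifs
      · cases h with
        | zero =>
          simp [tailSt, St.m, D]
          ring
        | succ h =>
          simp [tailSt, St.m, D]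
          ring
      · simp [tailSt, dead, St.m]
    · simp [tailSt, dead, St.m]

/-- Initial denominators. -/
noncomputable def Q0 : PowerSeries ℤ := mk (fun n => if n = 0 then 1 else - 2 ^ (n - 1))

noncomputable def Qs (s : ℕ → ℤ) : PowerSeries ℤ := Q0 + (1 - X) * (2 * mk s)

noncomputable def mainSt (s q : ℕ → ℤ) : St := ⟨false, Qs s, 2 * mk q⟩

theorem coeff_two_mk (s : ℕ → ℤ) (n : ℕ) : coeff n (2 * mk s : PowerSeries ℤ) = 2 * s n := by
  have : (2 : PowerSeries ℤ) = C 2 := by simp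
  rw [this, coeff_C_mul, coeff_mk]

theorem coeff_Qs_zero (s : ℕ → ℤ) (hs : s 0 = 0) : coeff 0 (Qs s) = 1 := by
  have e : Qs s = Q0 + (2 * mk s - (2 * mk s) * X) := by unfold Qs; ring
  rw [e, map_add, map_sub, coeff_two_mk, coeff_zero_mul_X, hs]
  simp [Q0]

theorem coeff_Qs_succ (s : ℕ → ℤ) (n : ℕ) :
    coeff (n + 1) (Qs s) = - 2 ^ n + 2 * s (n + 1) - 2 * s n := by
  have e : Qs s = Q0 + (2 * mk s - (2 * mk s) * X) := by unfold Qs; ring
  rw [e, map_add, map_sub, coeff_succ_mul_X, coeff_two_mk, coeff_two_mk]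
  simp [Q0]
  ring

/-- Invariants of a main vertex at level `k`. -/
structure MainOK (k : ℕ) (s q : ℕ → ℤ) : Prop where
  hs0 : ∀ n, n ≤ 4 → s n = 0
  hs : ∀ n, 0 ≤ s n
  hs1 : ∀ i, s (4 + i) ≤ 2 ^ i
  hs2 : ∀ j, s (4 + k + j) + 2 ^ j ≤ 2 ^ (k + j)
  hq0 : ∀ n, n < 4 + k → q n = 0
  hq : ∀ n, 0 ≤ q n
  hq1 : ∀ j, q (4 + k + j) ≤ 2 ^ j

theorem MainOK.Qbound {k : ℕ} {s q : ℕ → ℤ} (h : MainOK k s q) (m : ℕ) :
    3 * 2 ^ m ≤ - 4 * coeff (m + 1) (Qs s) ∧ - 4 * coeff (m + 1) (Qs s) ≤ 5 * 2 ^ m := by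
  rw [coeff_Qs_succ]
  have h1 : 8 * s (m + 1) ≤ 2 ^ m := by
    rcases Nat.lt_or_ge m 4 with h4 | h4
    · rw [h.hs0 (m + 1) (by omega)]
      positivity
    · obtain ⟨i, rfl⟩ := Nat.exists_eq_add_of_le h4
      have := h.hs1 (i + 1)
      have e1 : 4 + (i + 1) = 4 + i + 1 := by ring
      rw [e1] at this
      have e2 : (2 : ℤ) ^ (4 + i) = 8 * 2 ^ (i + 1) := by ring
      rw [e2]
      linarith
  have h2 : 8 * s m ≤ 2 ^ m := by
    rcases Nat.lt_or_ge m 4 with h4 | h4
    · rw [h.hs0 m (by omega)]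
      positivity
    · obtain ⟨i, rfl⟩ := Nat.exists_eq_add_of_le h4
      have := h.hs1 i
      have e2 : (2 : ℤ) ^ (4 + i) = 16 * 2 ^ i := by ring
      rw [e2]
      have h0 := h.hs (4 + i)
      linarith
  have h3 := h.hs (m + 1)
  have h4 := h.hs m
  constructor <;> linarith

/-- `T * D (l - 1) = Q`; here `l = h + 1`. -/
noncomputable def TT (h : ℕ) (Q : PowerSeries ℤ) : PowerSeries ℤ := Q * invOfUnit (D h) 1

theorem TT_mul (h : ℕ) (Q : PowerSeries ℤ) : TT h Q * D h = Q := by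
  unfold TT
  rw [mul_assoc, mul_comm (invOfUnit (D h) 1), mul_invOfUnit, mul_one]
  simp [D]

theorem TT_coeff_zero (h : ℕ) (Q : PowerSeries ℤ) : coeff 0 (TT h Q) = coeff 0 Q := by
  have h1 := congrArg (coeff 0) (TT_mul h Q)
  have e : TT h Q * D h = TT h Q - TT h Q * X + 2 * (TT h Q * X ^ (h + 1)) := by
    unfold D; ring
  have h2 : (2 : PowerSeries ℤ) = C 2 := by simp
  rw [e, h2, map_add, map_sub, coeff_C_mul, coeff_mul_X_pow', coeff_zero_mul_X] at h1
  simpa using h1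

theorem TT_coeff_succ (h : ℕ) (Q : PowerSeries ℤ) (n : ℕ) :
    coeff (n + 1) (TT h Q) = coeff n (TT h Q) + coeff (n + 1) Q
      - 2 * (if h ≤ n then coeff (n - h) (TT h Q) else 0) := by
  have h1 := congrArg (coeff (n + 1)) (TT_mul h Q)
  have e : TT h Q * D h = TT h Q - TT h Q * X + 2 * (TT h Q * X ^ (h + 1)) := by
    unfold D; ring
  have h2 : (2 : PowerSeries ℤ) = C 2 := by simp
  rw [e, h2, map_add, map_sub, coeff_C_mul, coeff_mul_X_pow', coeff_succ_mul_X] at h1
  have e1 : n + 1 - (h + 1) = n - h := by omega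
  rw [e1] at h1
  have e2 : (h + 1 ≤ n + 1) = (h ≤ n) := by simp
  simp only [e2] at h1
  linarith

theorem MainOK.Tbound {k : ℕ} {s q : ℕ → ℤ} (hM : MainOK k s q) (h : ℕ) (h3 : 3 ≤ h) (n : ℕ) :
    0 ≤ - coeff (n + 1) (TT h (Qs s)) ∧
      - 4 * coeff (n + 1) (TT h (Qs s)) + (if h ≤ n then 2 else 10) ≤ 5 * 2 ^ (n + 1) := by
  have hT0 : coeff 0 (TT h (Qs s)) = 1 := by
    rw [TT_coeff_zero, coeff_Qs_zero s (hM.hs0 0 (by norm_num))]
  induction n using Nat.strong_induction_on with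
  | _ n ih =>
    have hQ := hM.Qbound n
    have hrec := TT_coeff_succ h (Qs s) n
    rcases Nat.eq_zero_or_pos n with rfl | hn
    · have hlt : ¬ (h ≤ 0) := by omega
      rw [if_neg hlt] at hrec ⊢
      have hQ1 : coeff 1 (Qs s) = -1 := by
        rw [show (1 : ℕ) = 0 + 1 from rfl, coeff_Qs_succ, hM.hs0 _ (by norm_num),
          hM.hs0 _ (by norm_num)]
        norm_num
      rw [hT0] at hrec
      rw [zero_add] at hrec ⊢
      rw [hrec, hQ1]
      norm_num
    · obtain ⟨m, rfl⟩ : ∃ m, n = m + 1 := ⟨n - 1, by omega⟩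
      have ih1 := ih m (by omega)
      have hp : (0 : ℤ) < 2 ^ m := by positivity
      have ep1 : (2 : ℤ) ^ (m + 1) = 2 * 2 ^ m := by ring
      have ep2 : (2 : ℤ) ^ (m + 1 + 1) = 4 * 2 ^ m := by ring
      rw [ep1] at hQ ih1
      rw [ep2]
      by_cases hle : h ≤ m + 1
      · rw [if_pos hle] at hrec ⊢
        rcases Nat.eq_or_lt_of_le hle with heq | hlt
        · have e0 : m + 1 - h = 0 := by omega
          rw [e0, hT0] at hrec
          have hnle : ¬ (h ≤ m) := by omega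
          rw [if_neg hnle] at ih1
          obtain ⟨hQa, hQb⟩ := hQ
          obtain ⟨iha, ihb⟩ := ih1
          constructor <;> linarith
        · obtain ⟨r, hr⟩ : ∃ r, m + 1 - h = r + 1 := ⟨m - h, by omega⟩
          have ih2 := ih r (by omega)
          rw [hr] at hrec
          have hle2 : h ≤ m := by omega
          rw [if_pos hle2] at ih1
          have hpow : (2 : ℤ) ^ (r + 1) * 4 ≤ 2 ^ m := by
            have : r + 1 + 2 ≤ m := by omega
            calc (2 : ℤ) ^ (r + 1) * 4 = 2 ^ (r + 1 + 2) := by ring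
              _ ≤ 2 ^ m := pow_le_pow_right₀ (by norm_num) this
          have h5 : - 4 * coeff (r + 1) (TT h (Qs s)) ≤ 5 * 2 ^ (r + 1) := by
            have := ih2.2
            split_ifs at this <;> linarith
          obtain ⟨hQa, hQb⟩ := hQ
          obtain ⟨iha, ihb⟩ := ih1
          constructor <;> linarith [ih2.1]
      · rw [if_neg hle] at hrec ⊢
        have hnle : ¬ (h ≤ m) := by omega
        rw [if_neg hnle] at ih1
        obtain ⟨hQa, hQb⟩ := hQ
        obtain ⟨iha, ihb⟩ := ih1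
        constructor <;> linarith

theorem MainOK.T1 {k : ℕ} {s q : ℕ → ℤ} (hM : MainOK k s q) (h : ℕ) (h3 : 3 ≤ h) :
    coeff 1 (TT h (Qs s)) = 0 := by
  have hT0 : coeff 0 (TT h (Qs s)) = 1 := by
    rw [TT_coeff_zero, coeff_Qs_zero s (hM.hs0 0 (by norm_num))]
  have hrec := TT_coeff_succ h (Qs s) 0
  have hlt : ¬ (h ≤ 0) := by omega
  rw [if_neg hlt, hT0, zero_add, show (1 : ℕ) = 0 + 1 from rfl, coeff_Qs_succ,
    hM.hs0 _ (by norm_num), hM.hs0 _ (by norm_num)] at hrec
  rw [show (1 : ℕ) = 0 + 1 from rfl, hrec]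
  norm_num

theorem MainOK.T2 {k : ℕ} {s q : ℕ → ℤ} (hM : MainOK k s q) (h : ℕ) (h3 : 3 ≤ h) :
    coeff 2 (TT h (Qs s)) = -2 := by
  have hrec := TT_coeff_succ h (Qs s) 1
  have hlt : ¬ (h ≤ 1) := by omega
  rw [if_neg hlt, hM.T1 h h3, coeff_Qs_succ, hM.hs0 _ (by norm_num), hM.hs0 _ (by norm_num)] at hrec
  rw [show (2 : ℕ) = 1 + 1 from rfl, hrec]
  norm_num

end Pool.Agent.H82.Cogrowth
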