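import Pool.Agent.H82.Cogrowth.States

/-!
The step of the greedy state machine at a main vertex.
-/

set_option autoImplicit false

namespace Pool.Agent.H82.Cogrowth

open PowerSeries

/-- What remains after the tails at a main vertex have been removed. -/
noncomputable def rest (k : ℕ) (s q : ℕ → ℤ) : PowerSeries ℤ :=
  mk q - C (q (4 + k)) * (TT (k + 3) (Qs s) * X ^ (4 + k))
    - C (q (4 + k + 1)) * (TT (k + 4) (Qs s) * X ^ (4 + k + 1))

theorem coeff_rest (k : ℕ) (s q : ℕ → ℤ) (n : ℕ) :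
    coeff n (rest k s q) = q n
      - q (4 + k) * (if 4 + k ≤ n then coeff (n - (4 + k)) (TT (k + 3) (Qs s)) else 0)
      - q (4 + k + 1) *
        (if 4 + k + 1 ≤ n then coeff (n - (4 + k + 1)) (TT (k + 4) (Qs s)) else 0) := by
  unfold rest
  rw [map_sub, map_sub, coeff_C_mul, coeff_C_mul, coeff_mk, coeff_mul_X_pow', coeff_mul_X_pow']

variable {k : ℕ} {s q : ℕ → ℤ}

theorem MainOK.T0 (hM : MainOK k s q) (h : ℕ) : coeff 0 (TT h (Qs s)) = 1 := by
  rw [TT_coeff_zero, coeff_Qs_zero s (hM.hs0 0 (by norm_num))]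

theorem MainOK.rest_low (hM : MainOK k s q) (n : ℕ) (hn : n ≤ 4 + k + 1) :
    coeff n (rest k s q) = 0 := by
  rw [coeff_rest]
  rcases Nat.lt_or_ge n (4 + k) with h1 | h1
  · rw [if_neg (by omega), if_neg (by omega), hM.hq0 n h1]
    ring
  · rw [if_pos h1]
    rcases Nat.eq_or_lt_of_le h1 with h2 | h2
    · subst h2
      rw [if_neg (by omega), Nat.sub_self, hM.T0]
      ring
    · have h3 : n = 4 + k + 1 := by omega
      subst h3
      rw [if_pos le_rfl, Nat.sub_self, hM.T0]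
      have : 4 + k + 1 - (4 + k) = 1 := by omega
      rw [this, hM.T1 _ (by omega)]
      ring

theorem MainOK.qN (hM : MainOK k s q) : q (4 + k) = 0 ∨ q (4 + k) = 1 := by
  have h1 := hM.hq1 0
  have h2 := hM.hq (4 + k)
  rw [add_zero, pow_zero] at h1
  omega

theorem MainOK.qN1 (hM : MainOK k s q) :
    q (4 + k + 1) = 0 ∨ q (4 + k + 1) = 1 ∨ q (4 + k + 1) = 2 := by
  have h1 := hM.hq1 1
  have h2 := hM.hq (4 + k + 1)
  rw [pow_one] at h1
  omega

theorem MainOK.rest_high (hM : MainOK k s q) (j : ℕ) :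
    0 ≤ coeff (4 + k + 2 + j) (rest k s q) ∧
      coeff (4 + k + 2 + j) (rest k s q) ≤ 14 * 2 ^ j := by
  rw [coeff_rest, if_pos (by omega), if_pos (by omega)]
  have e1 : 4 + k + 2 + j - (4 + k) = (j + 1) + 1 := by omega
  have e2 : 4 + k + 2 + j - (4 + k + 1) = j + 1 := by omega
  rw [e1, e2]
  have h1 := hM.Tbound (k + 3) (by omega) (j + 1)
  have h2 := hM.Tbound (k + 4) (by omega) j
  have h3 := hM.hq1 (j + 2)
  have h4 := hM.hq (4 + k + 2 + j)
  have e3 : 4 + k + (j + 2) = 4 + k + 2 + j := by ring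
  rw [e3] at h3
  have p1 : (2 : ℤ) ^ (j + 2) = 4 * 2 ^ j := by ring
  have p2 : (2 : ℤ) ^ (j + 1 + 1) = 4 * 2 ^ j := by ring
  have p3 : (2 : ℤ) ^ (j + 1) = 2 * 2 ^ j := by ring
  rw [p1] at h3
  rw [p2] at h1
  rw [p3] at h2
  obtain ⟨h1a, h1b⟩ := h1
  obtain ⟨h2a, h2b⟩ := h2
  have h1c : - 4 * coeff (j + 1 + 1) (TT (k + 3) (Qs s)) + 2 ≤ 5 * (4 * 2 ^ j) := by
    split_ifs at h1b <;> linarith
  have h2c : - 4 * coeff (j + 1) (TT (k + 4) (Qs s)) + 2 ≤ 5 * (2 * 2 ^ j) := by
    split_ifs at h2b <;> linarith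
  have hp : (0 : ℤ) < 2 ^ j := by positivity
  rcases hM.qN with hN | hN <;> rcases hM.qN1 with hN1 | hN1 | hN1 <;> rw [hN, hN1] <;>
    constructor <;> linarith

/-- The series of the `i`-th main child. -/
noncomputable def qc (k : ℕ) (s q : ℕ → ℤ) (i : Fin 14) (n : ℕ) : ℤ :=
  coeff (n + 1) (rest k s q) / 14 + (if ((i : ℕ) : ℤ) < coeff (n + 1) (rest k s q) % 14 then 1 else 0)

theorem sum_lt_aux (r : ℤ) (h0 : 0 ≤ r) (h1 : r < 14) :
    ∑ i : Fin 14, (if ((i : ℕ) : ℤ) < r then (1 : ℤ) else 0) = r := by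
  interval_cases r <;> decide

theorem sum_qc (k : ℕ) (s q : ℕ → ℤ) (n : ℕ) :
    ∑ i, qc k s q i n = coeff (n + 1) (rest k s q) := by
  unfold qc
  rw [Finset.sum_add_distrib, sum_lt_aux _ (Int.emod_nonneg _ (by norm_num))
    (Int.emod_lt_of_pos _ (by norm_num))]
  simp
  omega

theorem MainOK.qc_low (hM : MainOK k s q) (i : Fin 14) (n : ℕ) (hn : n < 4 + (k + 1)) :
    qc k s q i n = 0 := by
  unfold qc
  rw [hM.rest_low (n + 1) (by omega)]
  simp

theorem MainOK.qc_high (hM : MainOK k s q) (i : Fin 14) (j : ℕ) :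
    qc k s q i (4 + (k + 1) + j) ≤ 2 ^ j := by
  unfold qc
  have e : 4 + (k + 1) + j + 1 = 4 + k + 2 + j := by ring
  rw [e]
  obtain ⟨h1, h2⟩ := hM.rest_high j
  split_ifs with h3
  · omega
  · omega

theorem MainOK.qc_nonneg (hM : MainOK k s q) (i : Fin 14) (n : ℕ) : 0 ≤ qc k s q i n := by
  rcases Nat.lt_or_ge n (4 + (k + 1)) with h1 | h1
  · rw [hM.qc_low i n h1]
  · obtain ⟨j, rfl⟩ := Nat.exists_eq_add_of_le h1
    unfold qc
    have e : 4 + (k + 1) + j + 1 = 4 + k + 2 + j := by ring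
    rw [e]
    obtain ⟨h1, h2⟩ := hM.rest_high j
    split_ifs with h3
    · omega
    · omega

theorem MainOK.child (hM : MainOK k s q) (i : Fin 14) :
    MainOK (k + 1) (fun n => s n + qc k s q i n) (qc k s q i) where
  hs0 := by
    intro n hn
    rw [hM.hs0 n hn, hM.qc_low i n (by omega)]
    rfl
  hs := by
    intro n
    have := hM.hs n
    have := hM.qc_nonneg i n
    positivity
  hs1 := by
    intro r
    rcases Nat.lt_or_ge r (k + 1) with h | h
    · rw [hM.qc_low i _ (by omega)]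
      have := hM.hs1 r
      linarith
    · obtain ⟨j, rfl⟩ := Nat.exists_eq_add_of_le h
      have h1 := hM.hs2 (1 + j)
      have h2 := hM.qc_high i j
      have e1 : 4 + k + (1 + j) = 4 + (k + 1 + j) := by ring
      have e2 : 4 + (k + 1) + j = 4 + (k + 1 + j) := by ring
      have e3 : k + (1 + j) = k + 1 + j := by ring
      rw [e1, e3] at h1
      rw [e2] at h2
      have p1 : (2 : ℤ) ^ (1 + j) = 2 * 2 ^ j := by ring
      have hp : (0 : ℤ) < 2 ^ j := by positivity
      rw [p1] at h1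
      linarith
  hs2 := by
    intro j
    have h1 := hM.hs2 (1 + j)
    have h2 := hM.qc_high i j
    have e1 : 4 + k + (1 + j) = 4 + (k + 1) + j := by ring
    have e3 : k + (1 + j) = k + 1 + j := by ring
    rw [e1, e3] at h1
    have p1 : (2 : ℤ) ^ (1 + j) = 2 * 2 ^ j := by ring
    rw [p1] at h1
    linarith
  hq0 := fun n hn => hM.qc_low i n hn
  hq := fun n => hM.qc_nonneg i n
  hq1 := fun j => hM.qc_high i j

/-- flagged states -/
def Flag (t : St) : Prop := ∃ k s q, MainOK k s q ∧ q (4 + k) = 1 ∧ t = mainSt s q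

theorem MainOK.child_flag (hM : MainOK k s q) (h1 : q (4 + k) = 1) :
    qc k s q 0 (4 + (k + 1)) = 1 := by
  have h2 := hM.qc_high 0 0
  rw [add_zero, pow_zero] at h2
  have h3 : 2 ≤ coeff (4 + k + 2 + 0) (rest k s q) := by
    rw [coeff_rest, if_pos (by omega), if_pos (by omega)]
    have e1 : 4 + k + 2 + 0 - (4 + k) = 2 := by omega
    have e2 : 4 + k + 2 + 0 - (4 + k + 1) = 1 := by omega
    rw [e1, e2, hM.T1 _ (by omega), hM.T2 _ (by omega), h1]
    have := hM.hq (4 + k + 2 + 0)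
    linarith
  have h4 := (hM.rest_high 0).2
  rw [pow_zero] at h4
  have h5 : 1 ≤ qc k s q 0 (4 + (k + 1)) := by
    unfold qc
    have e : 4 + (k + 1) + 1 = 4 + k + 2 + 0 := by ring
    rw [e]
    have h6 : (((0 : Fin 14) : ℕ) : ℤ) = 0 := rfl
    rw [h6]
    split_ifs with h7
    · omega
    · omega
  omega

/-- good states -/
def Good (t : St) : Prop :=
  (∃ k s q, MainOK k s q ∧ t = mainSt s q) ∨ (∃ h T, t = tailSt h T) ∨ (∃ b Q, t = dead b Q)

theorem Good.dead (b : Bool) (Q : PowerSeries ℤ) : Good (Cogrowth.dead b Q) :=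
  Or.inr (Or.inr ⟨b, Q, rfl⟩)

theorem Good.tail (h : ℕ) (T : PowerSeries ℤ) : Good (tailSt h T) :=
  Or.inr (Or.inl ⟨h, T, rfl⟩)

/-- The children at a main vertex. -/
noncomputable def mainCh (k : ℕ) (s q : ℕ → ℤ) : Ch → St :=
  Sum.elim (fun i => mainSt (fun n => s n + qc k s q i n) (qc k s q i))
    (fun j =>
      if j = 0 then (if q (4 + k) = 1 then tailSt (k + 3) (TT (k + 3) (Qs s)) else dead false (Qs s))
      else if j = 1 then
        (if q (4 + k + 1) = 0 then dead false (Qs s) else tailSt (k + 4) (TT (k + 4) (Qs s)))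
      else (if q (4 + k + 1) = 2 then tailSt (k + 4) (TT (k + 4) (Qs s)) else dead false (Qs s)))

theorem Qs_add (s t : ℕ → ℤ) :
    Qs (fun n => s n + t n) = Qs s + (1 - X) * (2 * mk t) := by
  have : (mk (fun n => s n + t n) : PowerSeries ℤ) = mk s + mk t := by
    ext n
    simp
  unfold Qs
  rw [this]
  ring

theorem tail_diff (h : ℕ) (Q : PowerSeries ℤ) :
    (tailSt (h + 1) (TT (h + 1) Q)).Q - Q = 2 * X ^ (h + 1) * (1 - X) * TT (h + 1) Q := by
  have h1 := TT_mul (h + 1) Q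
  have h2 : (tailSt (h + 1) (TT (h + 1) Q)).Q = TT (h + 1) Q * D h := rfl
  rw [h2]
  have h3 : TT (h + 1) Q * D h - Q = TT (h + 1) Q * D h - TT (h + 1) Q * D (h + 1) := by rw [h1]
  rw [h3]
  unfold D
  ring

theorem tail_eq2 (h : ℕ) (Q : PowerSeries ℤ) :
    (tailSt (h + 1) (TT (h + 1) Q)).Q * (1 - X +
      ((tailSt (h + 1) (TT (h + 1) Q)).m : PowerSeries ℤ) * X)
    = ((tailSt (h + 1) (TT (h + 1) Q)).m : PowerSeries ℤ) * Q
      + (1 - X) * (tailSt (h + 1) (TT (h + 1) Q)).F := by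
  have h1 := tail_diff h Q
  have h2 : (tailSt (h + 1) (TT (h + 1) Q)).m = 1 := rfl
  have h3 : (tailSt (h + 1) (TT (h + 1) Q)).F = 2 * X ^ (h + 1) * TT (h + 1) Q := rfl
  rw [h2, h3]
  push_cast
  linear_combination h1

theorem MainOK.step (hM : MainOK k s q) :
    (∀ i, Good (mainCh k s q i)) ∧ LocalEq (mainSt s q) (mainCh k s q) ∧
      (q (4 + k) = 1 → Flag (mainCh k s q (Sum.inl 0))) := by
  refine ⟨?_, ⟨?_, ?_⟩, ?_⟩
  · rintro (i | j)
    · exact Or.inl ⟨k + 1, _, _, hM.child i, rfl⟩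
    · simp only [mainCh, Sum.elim_inr]
      split_ifs <;> first | exact Good.tail _ _ | exact Good.dead _ _
  · rw [Fintype.sum_sum_type]
    have hmain : ∑ i : Fin 14, ((mainCh k s q (Sum.inl i)).m : PowerSeries ℤ) *
        ((mainCh k s q (Sum.inl i)).Q - (mainSt s q).Q)
        = (1 - X) * (2 * ∑ i : Fin 14, PowerSeries.mk (qc k s q i)) := by
      rw [Finset.mul_sum, Finset.mul_sum]
      refine Finset.sum_congr rfl fun i _ => ?_
      have h1 : (mainCh k s q (Sum.inl i)).m = 1 := rfl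
      have h2 : (mainCh k s q (Sum.inl i)).Q = Qs (fun n => s n + qc k s q i n) := rfl
      have h3 : (mainSt s q).Q = Qs s := rfl
      rw [h1, h2, h3, Qs_add]
      push_cast
      ring
    rw [hmain]
    have hX : X * ∑ i : Fin 14, PowerSeries.mk (qc k s q i) = rest k s q := by
      ext n
      rcases n with _ | n
      · rw [hM.rest_low 0 (by omega), mul_comm, coeff_zero_mul_X]
      · rw [mul_comm, coeff_succ_mul_X, map_sum, ← sum_qc]
        simp
    have h0 : ((mainCh k s q (Sum.inr 0)).m : PowerSeries ℤ) *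
        ((mainCh k s q (Sum.inr 0)).Q - (mainSt s q).Q)
        = C (q (4 + k)) * (2 * X ^ (k + 3) * (1 - X) * TT (k + 3) (Qs s)) := by
      have h3 : (mainSt s q).Q = Qs s := rfl
      rw [h3]
      rcases hM.qN with h | h
      · simp [mainCh, h, dead]
      · simp only [mainCh, Sum.elim_inr, h, if_true]
        rw [tail_diff (k + 2) (Qs s)]
        simp [tailSt, St.m]
    have h1 : ((mainCh k s q (Sum.inr 1)).m : PowerSeries ℤ) *
        ((mainCh k s q (Sum.inr 1)).Q - (mainSt s q).Q)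
        + ((mainCh k s q (Sum.inr 2)).m : PowerSeries ℤ) *
        ((mainCh k s q (Sum.inr 2)).Q - (mainSt s q).Q)
        = C (q (4 + k + 1)) * (2 * X ^ (k + 4) * (1 - X) * TT (k + 4) (Qs s)) := by
      have h3 : (mainSt s q).Q = Qs s := rfl
      rw [h3]
      have hd := tail_diff (k + 3) (Qs s)
      have hm : (tailSt (k + 4) (TT (k + 4) (Qs s))).m = 1 := rfl
      rcases hM.qN1 with h | h | h
      · simp [mainCh, h, dead]
      · simp only [mainCh, Sum.elim_inr, h]
        simp [dead, hm, hd]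
      · simp only [mainCh, Sum.elim_inr, h]
        simp [hm, hd]
        ring
    rw [Fin.sum_univ_three]
    have hF : (mainSt s q).F = 2 * PowerSeries.mk q := rfl
    rw [hF]
    have hr : PowerSeries.mk q = rest k s q + C (q (4 + k)) * (TT (k + 3) (Qs s) * X ^ (4 + k))
        + C (q (4 + k + 1)) * (TT (k + 4) (Qs s) * X ^ (4 + k + 1)) := by
      unfold rest; ring
    rw [hr, ← hX]
    linear_combination (-X) * h0 + (-X) * h1
  · rintro (i | j)
    · have h1 : (mainCh k s q (Sum.inl i)).m = 1 := rfl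
      have h2 : (mainCh k s q (Sum.inl i)).Q = Qs (fun n => s n + qc k s q i n) := rfl
      have h3 : (mainSt s q).Q = Qs s := rfl
      have h4 : (mainCh k s q (Sum.inl i)).F = 2 * PowerSeries.mk (qc k s q i) := rfl
      rw [h1, h2, h3, h4, Qs_add]
      push_cast
      ring
    · have h3 : (mainSt s q).Q = Qs s := rfl
      rw [h3]
      simp only [mainCh, Sum.elim_inr]
      split_ifs
      · exact tail_eq2 (k + 2) (Qs s)
      · simp [dead, St.m]
      · simp [dead, St.m]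
      · exact tail_eq2 (k + 3) (Qs s)
      · exact tail_eq2 (k + 3) (Qs s)
      · simp [dead, St.m]
  · intro h
    exact ⟨k + 1, _, _, hM.child 0, hM.child_flag h, rfl⟩

theorem good_step (t : St) (ht : Good t) :
    ∃ c : Ch → St, (∀ i, Good (c i)) ∧ LocalEq t c ∧ (Flag t → Flag (c (Sum.inl 0))) := by
  by_cases hf : Flag t
  · obtain ⟨k, s, q, hM, h1, rfl⟩ := hf
    obtain ⟨ha, hb, hc⟩ := hM.step
    exact ⟨_, ha, hb, fun _ => hc h1⟩
  · rcases ht with ⟨k, s, q, hM, rfl⟩ | ⟨h, T, rfl⟩ | ⟨b, Q, rfl⟩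
    · obtain ⟨ha, hb, _⟩ := hM.step
      exact ⟨_, ha, hb, fun h => absurd h hf⟩
    · cases h with
      | zero =>
        refine ⟨_, fun _ => Good.dead _ _, dead_step true (2 * T), fun h => absurd h hf⟩
      | succ h =>
        refine ⟨_, ?_, tail_step h T, fun h => absurd h hf⟩
        rintro (i | i)
        · simp only [Sum.elim_inl]
          split_ifs
          · exact Good.tail _ _
          · exact Good.dead _ _
        · exact Good.dead _ _
    · exact ⟨_, fun _ => Good.dead _ _, dead_step b Q, fun h => absurd h hf⟩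

end Pool.Agent.H82.Cogrowth
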