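import Pool.Agent.H82.Cogrowth.Count

/-!
The tree with doubled edges, its subgroup and its cogrowth series.
-/

set_option autoImplicit false

namespace Pool.Agent.H82.Cogrowth

open PowerSeries

variable {A B : Type*} [DecidableEq B] (e : A ≃ B × Bool) (dbl : List B → Bool)

/-- Is there an edge of colour `c` between the vertex `y` and its parent? -/
def hasEdge (c : Bool) (y : List B) : Bool := !c || dbl y

/-- The partial action of letters. -/
def treeAct : A × Bool → List B → Option (List B)
  | (a, true), v => if hasEdge dbl (e a).2 ((e a).1 :: v) then some ((e a).1 :: v) else none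
  | (_, false), [] => none
  | (a, false), i :: v => if (e a).1 = i ∧ hasEdge dbl (e a).2 (i :: v) then some v else none

/-- The tree as a partial action. -/
def treeP : PAct A (List B) where
  act := treeAct e dbl
  act_inv := by
    rintro ⟨a, b⟩ v w h
    cases b with
    | true =>
      simp only [treeAct, linv] at h ⊢
      split_ifs at h with h1
      · obtain rfl := Option.some.inj h
        simp [h1]
    | false =>
      cases v with
      | nil => simp [treeAct] at h
      | cons i v =>
        simp only [treeAct, linv] at h ⊢
        split_ifs at h with h1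
        · obtain rfl := Option.some.inj h
          obtain ⟨rfl, h2⟩ := h1
          simp [h2]

/-- multiplicity of the edge above `y` -/
def kap (y : List B) : ℤ := if dbl y then 2 else 1

variable [Fintype A] [Fintype B]

theorem sum_act {R : Type*} [CommRing R] (f : List B → R) (v : List B) :
    ∑ l, ((treeP e dbl).act l v).elim 0 f =
      ∑ i, (kap dbl (i :: v) : R) * f (i :: v) +
        (match v with
          | [] => 0
          | i :: v' => (kap dbl (i :: v') : R) * f v') := by
  classical
  rw [Fintype.sum_prod_type]
  simp only [Fintype.sum_bool]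
  rw [Finset.sum_add_distrib]
  congr 1
  · have : ∀ a : A, ((treeP e dbl).act (a, true) v).elim 0 f =
        (fun p : B × Bool => if hasEdge dbl p.2 (p.1 :: v) then f (p.1 :: v) else 0) (e a) := by
      intro a
      simp only [treeP, treeAct]
      split_ifs <;> simp
    rw [Finset.sum_congr rfl (fun a _ => this a), Equiv.sum_comp e
      (fun p : B × Bool => if hasEdge dbl p.2 (p.1 :: v) then f (p.1 :: v) else 0),
      Fintype.sum_prod_type]
    refine Finset.sum_congr rfl fun i _ => ?_
    simp only [Fintype.sum_bool, hasEdge, kap]
    by_cases h : dbl (i :: v) <;> simp [h]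
    ring
  · cases v with
    | nil =>
      simp [treeP, treeAct]
    | cons i v =>
      have : ∀ a : A, ((treeP e dbl).act (a, false) (i :: v)).elim 0 f =
          (fun p : B × Bool => if p.1 = i ∧ hasEdge dbl p.2 (i :: v) then f v else 0) (e a) := by
        intro a
        simp only [treeP, treeAct]
        split_ifs <;> simp
      rw [Finset.sum_congr rfl (fun a _ => this a), Equiv.sum_comp e
        (fun p : B × Bool => if p.1 = i ∧ hasEdge dbl p.2 (i :: v) then f v else 0),
        Fintype.sum_prod_type]
      simp only [Fintype.sum_bool, hasEdge, kap]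
      rw [Finset.sum_eq_single i]
      · by_cases h : dbl (i :: v) <;> simp [h]
        ring
      · intro j _ hj
        simp [hj]
      · simp

theorem two_ne : (2 : ℕ) ≠ 0 := by norm_num

/-- Substituting `X ^ 2` for `X`. -/
noncomputable def E2 : PowerSeries ℤ →ₐ[ℤ] PowerSeries ℤ := PowerSeries.expand 2 two_ne

theorem E2_X : E2 X = X ^ 2 := PowerSeries.expand_X 2 two_ne

/-- The key formula: linearised recursion for the cogrowth series of the tree. -/
theorem gen_tree (Q F : List B → PowerSeries ℤ)
    (h1 : ∀ v, (1 - X) * F v = X * ∑ i, (kap dbl (i :: v) : PowerSeries ℤ) * (Q (i :: v) - Q v))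
    (h2 : ∀ v i, Q (i :: v) * (1 - X + (kap dbl (i :: v) : PowerSeries ℤ) * X)
      = (kap dbl (i :: v) : PowerSeries ℤ) * Q v + (1 - X) * F (i :: v)) :
    E2 (Q [] - F []) * (treeP e dbl).gen [] [] = E2 (Q []) := by
  classical
  have hdeg : ∀ v, (treeP e dbl).deg v = ∑ i, kap dbl (i :: v) +
      (match v with
          | [] => 0
          | i :: v' => kap dbl (i :: v')) := by
    intro v
    have := sum_act (R := ℤ) e dbl (fun _ => 1) v
    rw [PAct.deg, this]
    cases v <;> simp
  have key : ∀ v, (treeP e dbl).gen [] v * E2 (Q [] - F []) - X ^ v.length * E2 (Q v) = 0 := by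
    apply (treeP e dbl).green_unique
    intro v
    have hsum : ∑ l, ((treeP e dbl).act l v).elim 0
        (fun v => (treeP e dbl).gen [] v * E2 (Q [] - F []) - X ^ v.length * E2 (Q v))
        = (∑ l, ((treeP e dbl).act l v).elim 0 ((treeP e dbl).gen [])) * E2 (Q [] - F [])
          - ∑ l, ((treeP e dbl).act l v).elim 0 (fun v => X ^ v.length * E2 (Q v)) := by
      rw [Finset.sum_mul, ← Finset.sum_sub_distrib]
      refine Finset.sum_congr rfl fun l _ => ?_
      cases (treeP e dbl).act l v <;> simp
    rw [hsum, mul_sub, ← mul_assoc]
    have hg := (treeP e dbl).gen_eq [] v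
    have hg' : X * ∑ l, ((treeP e dbl).act l v).elim 0 ((treeP e dbl).gen [])
        = (treeP e dbl).gen [] v * (1 + X ^ 2 * ((((treeP e dbl).deg v - 1 : ℤ) : PowerSeries ℤ)))
          - (1 - X ^ 2) * (if v = [] then 1 else 0) := by
      rw [hg]; ring
    rw [hg', sum_act]
    have hE1 := congrArg E2 (h1 v)
    simp only [map_mul, map_sub, map_one, map_sum, map_intCast, E2_X] at hE1
    rw [hdeg]
    cases v with
    | nil =>
      simp only [List.length_nil, pow_zero, one_mul, List.length_cons, zero_add, pow_one, add_zero,
        if_true]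
      have hs : ∑ i, (kap dbl [i] : PowerSeries ℤ) * (X * E2 (Q [i]))
          = X * (∑ i, (kap dbl [i] : PowerSeries ℤ) * (E2 (Q [i]) - E2 (Q [])))
            + X * (∑ i, (kap dbl [i] : PowerSeries ℤ)) * E2 (Q []) := by
        rw [Finset.mul_sum, mul_assoc, Finset.sum_mul, Finset.mul_sum, ← Finset.sum_add_distrib]
        refine Finset.sum_congr rfl fun i _ => ?_
        ring
      rw [hs]
      push_cast
      rw [map_sub]
      linear_combination (-1 : PowerSeries ℤ) * hE1
    | cons j v =>
      have hE2 := congrArg E2 (h2 v j)
      simp only [map_mul, map_sub, map_add, map_one, map_intCast, E2_X] at hE2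
      simp only [List.length_cons, reduceCtorEq, if_false, mul_zero, sub_zero]
      have hs : ∑ i, (kap dbl (i :: j :: v) : PowerSeries ℤ) *
          (X ^ (v.length + 1 + 1) * E2 (Q (i :: j :: v)))
          = X ^ (v.length + 1 + 1) *
            (∑ i, (kap dbl (i :: j :: v) : PowerSeries ℤ) * (E2 (Q (i :: j :: v)) - E2 (Q (j :: v))))
            + X ^ (v.length + 1 + 1) *
              (∑ i, (kap dbl (i :: j :: v) : PowerSeries ℤ)) * E2 (Q (j :: v)) := by
        rw [Finset.mul_sum, mul_assoc, Finset.sum_mul, Finset.mul_sum, ← Finset.sum_add_distrib]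
        refine Finset.sum_congr rfl fun i _ => ?_
        ring
      rw [hs]
      push_cast
      linear_combination (- X ^ (v.length + 1)) * hE2 - X ^ (v.length + 1) * hE1
  have := key []
  simp only [List.length_nil, pow_zero, one_mul] at this
  rw [mul_comm]
  exact sub_eq_zero.1 this

end Pool.Agent.H82.Cogrowth
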